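import Pool.Agent.Q156.GC.H3
import Pool.Agent.Q145.GC.Spec

/-!
Project GC, job GC9: from the von Mangoldt function to the primes.
-/

set_option autoImplicit false

namespace Pool.Agent.Q156.GC

open Finset
open ArithmeticFunction (vonMangoldt vonMangoldt_nonneg vonMangoldt_le_log vonMangoldt_apply_prime)

lemma pp_aux (L ℓ x y : ℝ) (hℓ : 0 ≤ ℓ) (h8 : 8 * ℓ ≤ L) (hL : 0 < L) (hx : |x - L| ≤ 4 * ℓ) (hy : |y - L| ≤ 4 * ℓ) :
    |L ^ 2 - x * y| ≤ 48 * ℓ / L * (x * y) := by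
  obtain ⟨x1, x2⟩ := abs_le.1 hx
  obtain ⟨y1, y2⟩ := abs_le.1 hy
  have e1 : L ^ 2 - x * y = -(L * (x - L)) - x * (y - L) := by ring
  have hx0 : 0 ≤ x := by linarith
  have e2 : |L ^ 2 - x * y| ≤ L * (4 * ℓ) + x * (4 * ℓ) := by
    rw [e1]
    refine (abs_sub _ _).trans ?_
    rw [abs_neg, abs_mul, abs_mul, abs_of_pos hL, abs_of_nonneg hx0]
    exact add_le_add (mul_le_mul_of_nonneg_left hx hL.le) (mul_le_mul_of_nonneg_left hy hx0)
  have e3 : L * (4 * ℓ) + x * (4 * ℓ) ≤ 10 * ℓ * L := by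
    have : x * (4 * ℓ) ≤ (3 / 2 * L) * (4 * ℓ) := mul_le_mul_of_nonneg_right (by linarith) (by linarith)
    linarith
  have e4 : L / 2 * (L / 2) ≤ x * y := mul_le_mul (by linarith) (by linarith) (by linarith) hx0
  have e5 : 48 * ℓ / L * (L / 2 * (L / 2)) ≤ 48 * ℓ / L * (x * y) := mul_le_mul_of_nonneg_left e4 (by positivity)
  have e6 : 48 * ℓ / L * (L / 2 * (L / 2)) = 12 * ℓ * L := by
    field_simp
    ring
  have e7 : 0 ≤ ℓ * L := mul_nonneg hℓ hL.le
  linarith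

/-- the proper prime powers -/
noncomputable def np (a : ℕ) : ℝ := if a.Prime then 0 else vonMangoldt a

lemma np_nonneg (a : ℕ) : 0 ≤ np a := by
  unfold np
  split_ifs
  · exact le_rfl
  · exact vonMangoldt_nonneg

lemma np_sum (Y n : ℕ) (hn : n ≤ Y) (hY : 1 ≤ Y) : ∑ s ∈ Icc 1 Y, np (n + s) ≤ 2 * √(2 * Y) * Real.log (2 * Y) := by
  have h1 : (1 : ℝ) ≤ 2 * (Y : ℝ) := by
    have : (1 : ℝ) ≤ Y := by exact_mod_cast hY
    linarith
  have h2 := Chebyshev.psi_sub_theta_le h1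
  rw [Chebyshev.psi_sub_theta_eq_sum_not_prime] at h2
  have h3 : ⌊2 * (Y : ℝ)⌋₊ = 2 * Y := by
    rw [show (2 : ℝ) * Y = ((2 * Y : ℕ) : ℝ) by push_cast; ring, Nat.floor_natCast]
  rw [h3] at h2
  refine le_trans ?_ h2
  rw [sum_filter]
  calc ∑ s ∈ Icc 1 Y, np (n + s) = ∑ a ∈ (Icc 1 Y).image (fun s => n + s), np a := by
        rw [sum_image]
        intro a _ b _ h
        simpa using h
    _ ≤ ∑ a ∈ Ioc 0 (2 * Y), np a := by
        apply sum_le_sum_of_subset_of_nonneg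
        · intro a ha
          rw [mem_image] at ha
          obtain ⟨s, hs, rfl⟩ := ha
          rw [mem_Icc] at hs
          rw [mem_Ioc]
          omega
        · intro a _ _
          exact np_nonneg a
    _ = ∑ a ∈ Ioc 0 (2 * Y), (if ¬ a.Prime then vonMangoldt a else 0) := by
        apply sum_congr rfl
        intro a _
        unfold np
        by_cases h : a.Prime
        · rw [if_pos h, if_neg (fun h' => h' h)]
        · rw [if_neg h, if_pos h]

/-- the pointwise bound -/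
lemma pw_aux (Y : ℕ) (L ℓ : ℝ) (hY : 3 ≤ Y) (hL : L = Real.log Y) (hℓ : ℓ = Real.log L) (hℓ1 : 1 ≤ ℓ) (h8 : 8 * ℓ ≤ L)
    (s n m : ℕ) (hs : 1 ≤ s) (hsY : s ≤ Y) (hn : n ≤ Y) (hm : m ≤ Y) :
    |(if (n + s).Prime ∧ (m + s).Prime then L ^ 2 else 0) - vonMangoldt (n + s) * vonMangoldt (m + s)| ≤
      (if (s : ℝ) ≤ Y / L ^ 4 then 4 * L ^ 2 else 0) + 2 * L * np (n + s) + 2 * L * np (m + s) +
        48 * ℓ / L * (vonMangoldt (n + s) * vonMangoldt (m + s)) := by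
  have hL0 : 0 < L := by linarith
  have hY3r : (3 : ℝ) ≤ Y := by exact_mod_cast hY
  have hlog : ∀ a : ℕ, 1 ≤ a → a ≤ 2 * Y → Real.log a ≤ L + 1 := by
    intro a ha1 ha
    have h1 : (a : ℝ) ≤ Real.exp 1 * Y := by
      have h2 : (a : ℝ) ≤ 2 * Y := by exact_mod_cast ha
      have h3 := Real.exp_one_gt_d9
      nlinarith
    have h2 : Real.log a ≤ Real.log (Real.exp 1 * Y) := Real.log_le_log (by exact_mod_cast ha1) h1
    rw [Real.log_mul (Real.exp_pos 1).ne' (by linarith), Real.log_exp, ← hL] at h2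
    linarith
  have hΛ : ∀ a : ℕ, 1 ≤ a → a ≤ 2 * Y → vonMangoldt a ≤ 2 * L := by
    intro a ha1 ha
    have h1 := hlog a ha1 ha
    have h2 : vonMangoldt a ≤ Real.log a := vonMangoldt_le_log
    linarith
  obtain ⟨a, ha⟩ : ∃ a, a = n + s := ⟨_, rfl⟩
  obtain ⟨b, hb⟩ : ∃ b, b = m + s := ⟨_, rfl⟩
  rw [← ha, ← hb]
  have ha1 : 1 ≤ a := by omega
  have hb1 : 1 ≤ b := by omega
  have ha2 : a ≤ 2 * Y := by omega
  have hb2 : b ≤ 2 * Y := by omega
  have va0 : 0 ≤ vonMangoldt a := vonMangoldt_nonneg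
  have vb0 : 0 ≤ vonMangoldt b := vonMangoldt_nonneg
  have va := hΛ a ha1 ha2
  have vb := hΛ b hb1 hb2
  have vab0 := mul_nonneg va0 vb0
  have vab : vonMangoldt a * vonMangoldt b ≤ (2 * L) * (2 * L) := mul_le_mul va vb vb0 (by linarith)
  have na := np_nonneg a
  have nb := np_nonneg b
  have n1 : 0 ≤ 2 * L * np a := mul_nonneg (by linarith) na
  have n2 : 0 ≤ 2 * L * np b := mul_nonneg (by linarith) nb
  have n3 : 0 ≤ 48 * ℓ / L * (vonMangoldt a * vonMangoldt b) := mul_nonneg (by positivity) vab0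
  by_cases hc : (s : ℝ) ≤ Y / L ^ 4
  · rw [if_pos hc]
    have h1 : |(if a.Prime ∧ b.Prime then L ^ 2 else 0) - vonMangoldt a * vonMangoldt b| ≤ 4 * L ^ 2 := by
      have : 0 ≤ L ^ 2 := sq_nonneg L
      rw [abs_le]
      split_ifs
      · constructor <;> nlinarith
      · constructor <;> nlinarith
    linarith
  · rw [if_neg hc]
    by_cases hp : a.Prime ∧ b.Prime
    · rw [if_pos hp, vonMangoldt_apply_prime hp.1, vonMangoldt_apply_prime hp.2] at *
      have hlow : ∀ c : ℕ, s ≤ c → c ≤ 2 * Y → |Real.log c - L| ≤ 4 * ℓ := by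
        intro c hc1 hc2
        have h1 := hlog c (by omega) hc2
        have h2 : (Y : ℝ) / L ^ 4 ≤ c := by
          have : (s : ℝ) ≤ c := by exact_mod_cast hc1
          linarith [not_le.1 hc]
        have h3 : Real.log (Y / L ^ 4) ≤ Real.log c := Real.log_le_log (by positivity) h2
        rw [Real.log_div (by linarith) (by positivity), Real.log_pow, ← hL, ← hℓ] at h3
        push_cast at h3
        rw [abs_le]
        constructor <;> linarith
      have h1 := pp_aux L ℓ (Real.log a) (Real.log b) (by linarith) h8 hL0 (hlow a (by omega) ha2) (hlow b (by omega) hb2)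
      linarith
    · rw [if_neg hp, zero_sub, abs_neg, abs_of_nonneg vab0]
      by_cases hpa : a.Prime
      · have hpb : ¬ b.Prime := fun h => hp ⟨hpa, h⟩
        have h1 : np b = vonMangoldt b := by unfold np; rw [if_neg hpb]
        have h2 : vonMangoldt a * vonMangoldt b ≤ 2 * L * np b := by
          rw [h1]
          exact mul_le_mul_of_nonneg_right va vb0
        linarith
      · have h1 : np a = vonMangoldt a := by unfold np; rw [if_neg hpa]
        have h2 : vonMangoldt a * vonMangoldt b ≤ 2 * L * np a := by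
          rw [h1, mul_comm]
          exact mul_le_mul_of_nonneg_right vb va0
        linarith

/-- the conversion in a class -/
theorem conv_class (Y : ℕ) (L ℓ : ℝ) (hY : 3 ≤ Y) (hL : L = Real.log Y) (hℓ : ℓ = Real.log L) (hℓ1 : 1 ≤ ℓ)
    (h8 : 8 * ℓ ≤ L) {W : ℕ} (t : ZMod W) (n m : ℕ) (hn : n ≤ Y) (hm : m ≤ Y) :
    |cs Y t (fun s => if (n + s).Prime ∧ (m + s).Prime then L ^ 2 else 0) -
      cs Y t (fun s => vonMangoldt (n + s) * vonMangoldt (m + s))| ≤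
      4 * Y / L ^ 2 + 16 * L ^ 2 * √(2 * Y) + 48 * ℓ / L * cs Y t (fun s => vonMangoldt (n + s) * vonMangoldt (m + s)) := by
  classical
  have hL0 : 0 < L := by linarith
  have hY3r : (3 : ℝ) ≤ Y := by exact_mod_cast hY
  obtain ⟨f, hf⟩ : ∃ f : ℕ → ℝ, f = fun s : ℕ => (if (s : ℝ) ≤ Y / L ^ 4 then 4 * L ^ 2 else 0) + 2 * L * np (n + s) +
    2 * L * np (m + s) := ⟨_, rfl⟩
  have hf0 : ∀ s, 0 ≤ f s := by
    intro s
    rw [hf]
    have a1 := np_nonneg (n + s)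
    have a2 := np_nonneg (m + s)
    have a3 : (0 : ℝ) ≤ (if (s : ℝ) ≤ Y / L ^ 4 then 4 * L ^ 2 else 0) := by
      split_ifs
      · positivity
      · exact le_rfl
    have a4 : 0 ≤ 2 * L * np (n + s) := mul_nonneg (by linarith) a1
    have a5 : 0 ≤ 2 * L * np (m + s) := mul_nonneg (by linarith) a2
    simp only
    linarith
  have h2 : |cs Y t (fun s => if (n + s).Prime ∧ (m + s).Prime then L ^ 2 else 0) -
      cs Y t (fun s => vonMangoldt (n + s) * vonMangoldt (m + s))| ≤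
      cs Y t f + 48 * ℓ / L * cs Y t (fun s => vonMangoldt (n + s) * vonMangoldt (m + s)) := by
    unfold cs
    rw [← sum_sub_distrib, mul_sum, ← sum_add_distrib]
    refine (abs_sum_le_sum_abs _ _).trans ?_
    apply sum_le_sum
    intro s hs
    obtain ⟨hs1, _⟩ := mem_filter.1 hs
    rw [mem_Icc] at hs1
    rw [hf]
    exact pw_aux Y L ℓ hY hL hℓ hℓ1 h8 s n m hs1.1 hs1.2 hn hm
  have h3 : cs Y t f ≤ ∑ s ∈ Icc 1 Y, f s := by
    unfold cs
    exact sum_le_sum_of_subset_of_nonneg (filter_subset _ _) fun s _ _ => hf0 s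
  have h3' : ∑ s ∈ Icc 1 Y, f s = ∑ s ∈ Icc 1 Y, (if (s : ℝ) ≤ Y / L ^ 4 then 4 * L ^ 2 else 0) +
      2 * L * ∑ s ∈ Icc 1 Y, np (n + s) + 2 * L * ∑ s ∈ Icc 1 Y, np (m + s) := by
    rw [hf, mul_sum, mul_sum, ← sum_add_distrib, ← sum_add_distrib]
  have h4 : ∑ s ∈ Icc 1 Y, (if (s : ℝ) ≤ Y / L ^ 4 then 4 * L ^ 2 else 0) ≤ 4 * Y / L ^ 2 := by
    rw [← sum_filter, sum_const, nsmul_eq_mul]
    have a1 : #((Icc 1 Y).filter (fun s : ℕ => (s : ℝ) ≤ Y / L ^ 4)) ≤ ⌊(Y : ℝ) / L ^ 4⌋₊ := by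
      have : (Icc 1 Y).filter (fun s : ℕ => (s : ℝ) ≤ Y / L ^ 4) ⊆ Icc 1 ⌊(Y : ℝ) / L ^ 4⌋₊ := by
        intro s hs
        obtain ⟨hs1, hs2⟩ := mem_filter.1 hs
        rw [mem_Icc] at hs1 ⊢
        exact ⟨hs1.1, Nat.le_floor hs2⟩
      have h := card_le_card this
      rwa [Nat.card_Icc, Nat.add_sub_cancel] at h
    have a2 : (#((Icc 1 Y).filter (fun s : ℕ => (s : ℝ) ≤ Y / L ^ 4)) : ℝ) ≤ (Y : ℝ) / L ^ 4 := by
      have : (#((Icc 1 Y).filter (fun s : ℕ => (s : ℝ) ≤ Y / L ^ 4)) : ℝ) ≤ (⌊(Y : ℝ) / L ^ 4⌋₊ : ℝ) := by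
        exact_mod_cast a1
      exact this.trans (Nat.floor_le (by positivity))
    calc (#((Icc 1 Y).filter (fun s : ℕ => (s : ℝ) ≤ Y / L ^ 4)) : ℝ) * (4 * L ^ 2)
        ≤ (Y : ℝ) / L ^ 4 * (4 * L ^ 2) := mul_le_mul_of_nonneg_right a2 (by positivity)
      _ = 4 * Y / L ^ 2 := by field_simp
  have hlog2 : Real.log (2 * (Y : ℝ)) ≤ 2 * L := by
    rw [Real.log_mul (by norm_num) (by linarith), ← hL]
    have := Real.log_two_lt_d9
    linarith
  have h5 : ∀ n : ℕ, n ≤ Y → 2 * L * ∑ s ∈ Icc 1 Y, np (n + s) ≤ 8 * L ^ 2 * √(2 * Y) := by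
    intro n hn
    have a1 := np_sum Y n hn (by omega)
    have a2 : 0 ≤ √(2 * (Y : ℝ)) := Real.sqrt_nonneg _
    calc 2 * L * ∑ s ∈ Icc 1 Y, np (n + s) ≤ 2 * L * (2 * √(2 * Y) * Real.log (2 * Y)) :=
          mul_le_mul_of_nonneg_left a1 (by linarith)
      _ ≤ 2 * L * (2 * √(2 * Y) * (2 * L)) := by
          apply mul_le_mul_of_nonneg_left _ (by linarith)
          exact mul_le_mul_of_nonneg_left hlog2 (by linarith)
      _ = 8 * L ^ 2 * √(2 * Y) := by ring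
  have h6 := h5 n hn
  have h7 := h5 m hm
  linarith

end Pool.Agent.Q156.GC
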