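import Pool.Agent.Q156.GC.H4
import Pool.Agent.Q156.GC.H5
import Pool.Agent.Q156.MW.M5
import Pool.Agent.H373R2.T7.Fund

/-!
Project GC, job GC9: the formula of Hardy and Littlewood in the classes modulo `W`, for almost all
pairs of shifts.
-/

set_option autoImplicit false

namespace Pool.Agent.Q156.GC

open Finset Filter Topology
open ArithmeticFunction (vonMangoldt vonMangoldt_nonneg)
open Pool.Agent.H373R2.T7 (pz mem_pz Vz Vz_pos Vz_le_one lamz Vz_inv_small Vz_low)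
open Pool.Agent.TH204.WR (evt_log_ge evt_log_pow)
open Pool.Agent.Q156.MW (loglog_small)
open Pool.Agent.Q156.SW (cnt2 V1 V1_pos Vz_split)
open Pool.Agent.Q145.GC

/-- the size of the number of the shifts in a class -/
lemma NT_bounds (Y W : ℕ) [NeZero W] (hY : 2 * W ≤ Y) (t : ZMod W) :
    (Y : ℝ) ≤ 2 * W * NT Y t ∧ 1 ≤ NT Y t := by
  have hW : 0 < W := Nat.pos_of_ne_zero (NeZero.ne W)
  have h1 : Y + r0 t < (NT Y t + 1) * W := by
    unfold NT
    exact (Nat.div_lt_iff_lt_mul hW).1 (Nat.lt_succ_self _)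
  have h2 : 1 ≤ NT Y t := by
    unfold NT
    rw [Nat.one_le_div_iff hW]
    omega
  refine ⟨?_, h2⟩
  have h3 : Y < (NT Y t + 1) * W := by omega
  have h4 : (NT Y t + 1) * W ≤ 2 * W * NT Y t := by
    have : NT Y t + 1 ≤ 2 * NT Y t := by omega
    calc (NT Y t + 1) * W ≤ (2 * NT Y t) * W := Nat.mul_le_mul_right _ this
      _ = 2 * W * NT Y t := by ring
  exact_mod_cast (h3.le.trans h4)

/-- the final inequality -/
lemma fin_aux (N Y L ℓ W D S Z M G b1 bt C0 : ℝ) (hN : 0 < N) (hY : 0 < Y) (hL : 1 ≤ L) (hℓ0 : 0 ≤ ℓ) (hℓL : ℓ ≤ L)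
    (hW : 1 ≤ W) (hYN : Y ≤ 2 * W * N) (hb1 : b1 ≤ 2 * Y) (hb0 : 0 ≤ b1)
    (h1 : |L ^ 2 * D - S| ≤ 4 * Y / L ^ 2 + 16 * b1 / L + 48 * ℓ / L * S)
    (h2 : |S - Z| ≤ Y / L) (h3 : |Z - N * G| ≤ 8 * N / L) (hG : G ≤ bt * C0) (hbt : 0 ≤ bt) (hC : 0 ≤ C0) :
    |L ^ 2 * (D / N) - G| ≤ (200 * W + 400) / L + 48 * (bt * C0 * ℓ) / L := by
  have hL0 : 0 < L := by linarith
  obtain ⟨p1, p2⟩ := abs_le.1 h2
  obtain ⟨q1, q2⟩ := abs_le.1 h3
  have e1 : S ≤ N * (bt * C0) + 8 * N / L + 2 * W * N / L := by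
    have a1 : N * G ≤ N * (bt * C0) := mul_le_mul_of_nonneg_left hG hN.le
    have a2 : Y / L ≤ 2 * W * N / L := by gcongr
    linarith
  have e2 : 48 * ℓ / L * S ≤ 48 * ℓ / L * (N * (bt * C0) + 8 * N / L + 2 * W * N / L) :=
    mul_le_mul_of_nonneg_left e1 (by positivity)
  have e3 : 48 * ℓ / L * (N * (bt * C0) + 8 * N / L + 2 * W * N / L) =
      N * (48 * (bt * C0 * ℓ) / L) + N * (48 * (ℓ / L) * (8 + 2 * W) / L) := by
    field_simp
    ring
  have e4 : ℓ / L ≤ 1 := by rw [div_le_one hL0]; exact hℓL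
  have e5 : N * (48 * (ℓ / L) * (8 + 2 * W) / L) ≤ N * (48 * 1 * (8 + 2 * W) / L) := by gcongr
  have e6 : 4 * Y / L ^ 2 ≤ N * (8 * W / L) := by
    have a1 : L ≤ L ^ 2 := by nlinarith
    calc 4 * Y / L ^ 2 ≤ 4 * (2 * W * N) / L ^ 2 := by gcongr
      _ ≤ 4 * (2 * W * N) / L := by gcongr
      _ = N * (8 * W / L) := by ring
  have e7 : 16 * b1 / L ≤ N * (64 * W / L) := by
    calc 16 * b1 / L ≤ 16 * (2 * (2 * W * N)) / L := by
          have : b1 ≤ 2 * (2 * W * N) := by linarith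
          gcongr
      _ = N * (64 * W / L) := by ring
  have e8 : Y / L ≤ N * (2 * W / L) := by
    calc Y / L ≤ 2 * W * N / L := by gcongr
      _ = N * (2 * W / L) := by ring
  have e9 : 8 * N / L = N * (8 / L) := by ring
  have e10 : |L ^ 2 * D - N * G| ≤ N * ((200 * W + 400) / L + 48 * (bt * C0 * ℓ) / L) := by
    have a1 : |L ^ 2 * D - N * G| ≤ |L ^ 2 * D - S| + |S - Z| + |Z - N * G| := by
      have b1 := abs_sub_le (L ^ 2 * D) S (N * G)
      have b2 := abs_sub_le S Z (N * G)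
      linarith
    have a2 : N * (8 * W / L) + N * (64 * W / L) + N * (48 * 1 * (8 + 2 * W) / L) + N * (2 * W / L) + N * (8 / L) ≤
        N * ((200 * W + 400) / L) := by
      have : N * (8 * W / L) + N * (64 * W / L) + N * (48 * 1 * (8 + 2 * W) / L) + N * (2 * W / L) + N * (8 / L) =
          N * ((170 * W + 392) / L) := by ring
      rw [this]
      gcongr <;> linarith
    rw [mul_add]
    linarith
  have e11 : L ^ 2 * (D / N) - G = (L ^ 2 * D - N * G) / N := by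
    field_simp
  rw [e11, abs_div, abs_of_pos hN, div_le_iff₀ hN]
  linarith

theorem hl : S_Hl := by
  classical
  intro w A ε hε
  obtain ⟨B0, h⟩ := few_pairs (primorial w) A
  obtain ⟨N1, h⟩ := h (B0 + 1)
  obtain ⟨N2, hcnt⟩ := cnt2_asym (B0 + 1 + 1) 3
  obtain ⟨N3, hV⟩ := Vz_inv_small (B0 + 1)
  obtain ⟨C, z0, hlow⟩ := Vz_low
  obtain ⟨W, hW⟩ : ∃ W : ℕ, W = primorial w := ⟨_, rfl⟩
  have hW1 : 1 ≤ W := by rw [hW]; exact primorial_pos w
  have hW1r : (1 : ℝ) ≤ W := by exact_mod_cast hW1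
  obtain ⟨K, hK⟩ : ∃ K : ℝ, K = bta W * ((B0 : ℝ) + 1) ^ C := ⟨_, rfl⟩
  have hbta0 : 0 ≤ bta W := by unfold bta; positivity
  have hK0 : 0 ≤ K := by rw [hK]; positivity
  have a1 := loglog_small (C + 1) (ε / (200 * (K + 1))) (by positivity)
  have a2 := loglog_small 1 (1 / 8) (by norm_num)
  have a3 := evt_log_ge (2 * (200 * W + 400) / ε)
  have a4 := evt_log_ge (Real.exp 1 + w + z0 + 3 + 2 ^ (B0 + 3) + 2 * Real.log (2 * W))
  have a5 := evt_log_pow 6 (1 : ℝ) one_pos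
  obtain ⟨N4, h0⟩ := eventually_atTop.1 (a1.and (a2.and (a3.and (a4.and a5))))
  refine ⟨max (max N1 N3) (max (max N4 3) (2 * W * (N2 + 1))), fun Y => max w ⌊Real.log Y ^ (B0 + 1)⌋₊,
    fun Y => le_max_left _ _, fun Y hY => ?_⟩
  beta_reduce
  have hY1 : N1 ≤ Y := (le_max_left _ _).trans ((le_max_left _ _).trans hY)
  have hY3 : N3 ≤ Y := (le_max_right _ _).trans ((le_max_left _ _).trans hY)
  have hY4 : N4 ≤ Y := (le_max_left _ _).trans ((le_max_left _ _).trans ((le_max_right _ _).trans hY))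
  have hY33 : 3 ≤ Y := (le_max_right _ _).trans ((le_max_left _ _).trans ((le_max_right _ _).trans hY))
  have hYW : 2 * W * (N2 + 1) ≤ Y := (le_max_right _ _).trans ((le_max_right _ _).trans hY)
  obtain ⟨b1, b2, b3, b4, b5⟩ := h0 Y hY4
  replace h := h Y hY1
  replace hV := hV Y hY3
  obtain ⟨L, hL⟩ : ∃ L, L = Real.log Y := ⟨_, rfl⟩
  rw [← hL] at h hV b1 b2 b3 b4 b5 ⊢
  obtain ⟨ℓ, hℓ⟩ : ∃ ℓ, ℓ = Real.log L := ⟨_, rfl⟩
  rw [← hℓ] at b1 b2
  rw [pow_one] at b2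
  rw [Real.rpow_one] at b5
  have hexp := Real.exp_pos 1
  have hw0 : (0 : ℝ) ≤ w := Nat.cast_nonneg _
  have hz00 : (0 : ℝ) ≤ z0 := Nat.cast_nonneg _
  have h2p : (0 : ℝ) < 2 ^ (B0 + 3) := by positivity
  have hlogW : 0 ≤ Real.log (2 * W) := Real.log_nonneg (by linarith)
  have hL3 : 3 ≤ L := by linarith
  have hL0 : 0 < L := by linarith
  have hL1 : 1 ≤ L := by linarith
  have hℓ1 : 1 ≤ ℓ := by
    rw [hℓ, Real.le_log_iff_exp_le hL0]
    linarith
  have hℓL : ℓ ≤ L := by linarith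
  have hY0 : (0 : ℝ) < Y := by
    have : (3 : ℝ) ≤ Y := by exact_mod_cast hY33
    linarith
  obtain ⟨z, hz⟩ : ∃ z : ℕ, z = ⌊L ^ (B0 + 1)⌋₊ := ⟨_, rfl⟩
  have hLE : L ≤ L ^ (B0 + 1) := le_self_pow₀ hL1 (by omega)
  have hwz : w ≤ z := by
    rw [hz]
    apply Nat.le_floor
    linarith
  have hzz : max w ⌊L ^ (B0 + 1)⌋₊ = z := by rw [← hz]; exact max_eq_right hwz
  rw [hzz]
  have hzL : (z : ℝ) ≤ L ^ (B0 + 1) := by rw [hz]; exact Nat.floor_le (pow_nonneg hL0.le _)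
  have hz1 : 1 ≤ z := by
    rw [hz]
    apply Nat.le_floor
    push_cast
    linarith
  have hzz0 : z0 ≤ z := by
    rw [hz]
    apply Nat.le_floor
    linarith
  have hzlow : L ^ B0 ≤ z := by
    have c1 : L ^ (B0 + 1) < z + 1 := by rw [hz]; exact Nat.lt_floor_add_one _
    have c2 : 1 ≤ L ^ B0 := one_le_pow₀ hL1
    rw [pow_succ] at c1
    have c3 : L ^ B0 * 3 ≤ L ^ B0 * L := mul_le_mul_of_nonneg_left hL3 (by linarith)
    linarith
  replace h := h z hz1 hzlow hzL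
  replace hV := hV z hz1 hzL
  -- the bound for the inverse of the density
  have hVC : (Vz z)⁻¹ ≤ (((B0 : ℝ) + 1) * ℓ) ^ C := by
    have c1 := hlow z hzz0
    have hz2 : (2 : ℝ) ≤ z := by
      have : (3 : ℝ) ≤ L ^ (B0 + 1) := by linarith
      have c2 : L ^ (B0 + 1) < z + 1 := by rw [hz]; exact Nat.lt_floor_add_one _
      linarith
    have c2 : 0 < Real.log z := Real.log_pos (by linarith)
    have c3 : (Vz z)⁻¹ ≤ Real.log z ^ C := by
      rw [inv_le_comm₀ (Vz_pos z) (pow_pos c2 C)]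
      rwa [one_div] at c1
    refine c3.trans (pow_le_pow_left₀ c2.le ?_ C)
    have c4 : Real.log z ≤ Real.log (L ^ (B0 + 1)) := Real.log_le_log (by linarith) hzL
    rw [Real.log_pow, ← hℓ] at c4
    push_cast at c4
    exact c4
  refine le_trans ?_ h
  have hsub : (Icc 1 Y ×ˢ Icc 1 Y).filter (fun q : ℕ × ℕ => q.1 ≠ q.2 ∧ ¬ ∀ t : ZMod (primorial w),
      |L ^ 2 * dn Y (primorial w) t (fun s => (q.1 + s).Prime ∧ (q.2 + s).Prime) -
        bta (primorial w) ^ 2 * un ((q.1 : ZMod (primorial w)) + t) * un ((q.2 : ZMod (primorial w)) + t) *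
        sg w z (Nat.dist q.1 q.2)| ≤ ε) ⊆
      (Icc 1 Y ×ˢ Icc 1 Y).filter (fun q : ℕ × ℕ => ¬ ∀ t : ZMod (primorial w), |df Y z t q.1 q.2| ≤ Y / L) := by
    intro q hq
    obtain ⟨hq1, hq2, hq3⟩ := mem_filter.1 hq
    refine mem_filter.2 ⟨hq1, fun hgood => hq3 ?_⟩
    obtain ⟨n, m⟩ := q
    rw [mem_product, mem_Icc, mem_Icc] at hq1
    obtain ⟨⟨hn1, hn2⟩, hm1, hm2⟩ := hq1
    simp only at hn1 hn2 hm1 hm2 hgood ⊢
    intro t
    have hdf := hgood t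
    unfold df at hdf
    have hYW2 : 2 * primorial w ≤ Y := by
      rw [← hW]
      refine le_trans ?_ hYW
      exact Nat.le_mul_of_pos_right _ (by omega)
    obtain ⟨hN1, hN2⟩ := NT_bounds Y (primorial w) hYW2 t
    obtain ⟨N, hN⟩ : ∃ N : ℕ, N = NT Y t := ⟨_, rfl⟩
    rw [← hN] at hN1 hN2
    rw [← hW] at hN1
    have hN0 : (0 : ℝ) < N := by exact_mod_cast hN2
    have hNN2 : N2 ≤ N := by
      have c1 : ((2 * W * (N2 + 1) : ℕ) : ℝ) ≤ 2 * W * N := by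
        have : ((2 * W * (N2 + 1) : ℕ) : ℝ) ≤ Y := by exact_mod_cast hYW
        linarith
      have c2 : 2 * W * (N2 + 1) ≤ 2 * W * N := by exact_mod_cast c1
      have c3 := Nat.le_of_mul_le_mul_left c2 (by omega)
      omega
    -- the logarithm of N
    have hlogN : L / 2 ≤ Real.log N := by
      have c1 : L ≤ Real.log (2 * W * N) := by rw [hL]; exact Real.log_le_log hY0 hN1
      rw [Real.log_mul (by positivity) (by positivity)] at c1
      linarith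
    have hlogN0 : 0 < Real.log N := by linarith
    have hzN : (z : ℝ) ≤ Real.log N ^ (B0 + 1 + 1) := by
      have c1 : L ^ (B0 + 1) ≤ (2 * Real.log N) ^ (B0 + 1) := pow_le_pow_left₀ hL0.le (by linarith) _
      rw [mul_pow] at c1
      have c2 : (2 : ℝ) ^ (B0 + 1) ≤ Real.log N := by
        have c3 : (2 : ℝ) ^ (B0 + 3) = 4 * 2 ^ (B0 + 1) := by rw [pow_add _ B0 3, pow_add _ B0 1]; ring
        have c4 : (0 : ℝ) < 2 ^ (B0 + 1) := by positivity
        linarith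
      calc (z : ℝ) ≤ L ^ (B0 + 1) := hzL
        _ ≤ 2 ^ (B0 + 1) * Real.log N ^ (B0 + 1) := c1
        _ ≤ Real.log N * Real.log N ^ (B0 + 1) := mul_le_mul_of_nonneg_right c2 (pow_nonneg hlogN0.le _)
        _ = Real.log N ^ (B0 + 1 + 1) := by ring
    have hWd : ∀ p : ℕ, p.Prime → w < p → ¬ (p : ℤ) ∣ (primorial w : ℤ) := by
      intro p hp hpw hd
      rw [Int.natCast_dvd_natCast] at hd
      exact absurd (hp.dvd_primorial_iff.1 hd) (by omega)
    have hcn := hcnt N hNN2 z hz1 hzN w (primorial w : ℤ) hWd ((n : ℤ) - r0 t) ((m : ℤ) - r0 t)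
    have hh : ((n : ℤ) - r0 t) - ((m : ℤ) - r0 t) = (n : ℤ) - m := by ring
    rw [hh] at hcn
    have hcl := cs_lamz w z hwz Y n m t
    rw [← hN] at hcl
    have hV0 := Vz_pos z
    have hV1 := V1_pos w z
    have hsg := sg_eq w z n m
    have hlf := lf_le w z ((n : ℤ) - m)
    have hlf0 := lf_nonneg w z ((n : ℤ) - m)
    have hbta := bta_eq w
    have hsplit := Vz_split w z hwz
    obtain ⟨c, hc⟩ : ∃ c : ℝ, c = (cnt2 w z (primorial w : ℤ) ((n : ℤ) - r0 t) ((m : ℤ) - r0 t) N : ℝ) := ⟨_, rfl⟩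
    obtain ⟨lv, hlv⟩ : ∃ lv : ℝ, lv = lf w z ((n : ℤ) - m) := ⟨_, rfl⟩
    obtain ⟨u1, hu1⟩ : ∃ u1 : ℝ, u1 = un ((n : ZMod (primorial w)) + t) := ⟨_, rfl⟩
    obtain ⟨u2, hu2⟩ : ∃ u2 : ℝ, u2 = un ((m : ZMod (primorial w)) + t) := ⟨_, rfl⟩
    have hu10 : 0 ≤ u1 := by rw [hu1]; exact un_nonneg _
    have hu11 : u1 ≤ 1 := by rw [hu1]; exact un_le_one _
    have hu20 : 0 ≤ u2 := by rw [hu2]; exact un_nonneg _
    have hu21 : u2 ≤ 1 := by rw [hu2]; exact un_le_one _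
    have hu : u1 * u2 ≤ 1 := mul_le_one₀ hu11 hu20 hu21
    have hu0 : 0 ≤ u1 * u2 := mul_nonneg hu10 hu20
    rw [← hc, ← hlv] at hcn
    rw [← hc, ← hu1, ← hu2] at hcl
    rw [← hlv] at hsg hlf hlf0
    rw [← hu1, ← hu2]
    -- the conversion
    have hconv := conv_class Y L ℓ hY33 hL hℓ hℓ1 (by linarith) t n m hn2 hm2
    obtain ⟨S, hS⟩ : ∃ S : ℝ, S = cs Y t (fun s => vonMangoldt (n + s) * vonMangoldt (m + s)) := ⟨_, rfl⟩
    obtain ⟨Z, hZ⟩ : ∃ Z : ℝ, Z = cs Y t (fun s => lamz z (n + s) * lamz z (m + s)) := ⟨_, rfl⟩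
    rw [← hS] at hconv
    rw [← hS, ← hZ] at hdf
    rw [← hZ] at hcl
    obtain ⟨D, hD⟩ : ∃ D : ℝ, D = (((Icc 1 Y).filter (fun s : ℕ => (s : ZMod (primorial w)) = t ∧
      ((n + s).Prime ∧ (m + s).Prime))).card : ℝ) := ⟨_, rfl⟩
    have hdn : dn Y (primorial w) t (fun s => (n + s).Prime ∧ (m + s).Prime) = D / N := by
      unfold dn
      rw [hD, hN]
      congr 2
      · congr!
      · rw [← class_card Y t]
    have hcD : cs Y t (fun s => if (n + s).Prime ∧ (m + s).Prime then L ^ 2 else 0) = L ^ 2 * D := by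
      unfold cs
      rw [← sum_filter, sum_const, nsmul_eq_mul, filter_filter, hD, mul_comm]
    rw [hcD] at hconv
    rw [hdn]
    -- the model
    obtain ⟨G, hG⟩ : ∃ G : ℝ, G = bta (primorial w) ^ 2 * u1 * u2 * sg w z (Nat.dist n m) := ⟨_, rfl⟩
    rw [← hG]
    have hVw := Vz_pos w
    have hGe : G = (Vz z)⁻¹ ^ 2 * (u1 * u2) * lv := by
      rw [hG, hsg, hbta, hsplit]
      field_simp
    have hZG : |Z - N * G| ≤ 8 * N / L := by
      have c1 : Z - N * G = (Vz z)⁻¹ ^ 2 * (u1 * u2) * (c - N * lv) := by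
        rw [hcl, hGe]
        ring
      have c2 : 0 ≤ (Vz z)⁻¹ ^ 2 * (u1 * u2) := by positivity
      rw [c1, abs_mul, abs_of_nonneg c2]
      have c3 : (Vz z)⁻¹ ^ 2 * (u1 * u2) ≤ L ^ 2 * 1 :=
        mul_le_mul (pow_le_pow_left₀ (inv_pos.2 hV0).le hV 2) hu hu0 (by positivity)
      have c4 : (N : ℝ) / Real.log N ^ 3 ≤ N / (L / 2) ^ 3 := by
        apply div_le_div_of_nonneg_left hN0.le (by positivity)
        exact pow_le_pow_left₀ (by linarith) hlogN 3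
      calc (Vz z)⁻¹ ^ 2 * (u1 * u2) * |c - N * lv| ≤ (L ^ 2 * 1) * (N / (L / 2) ^ 3) :=
            mul_le_mul c3 (hcn.trans c4) (abs_nonneg _) (by positivity)
        _ = 8 * N / L := by field_simp; norm_num
    have hGle : G ≤ bta W * (((B0 : ℝ) + 1) * ℓ) ^ C := by
      rw [hGe]
      have c1 : (Vz z)⁻¹ ^ 2 * (u1 * u2) * lv ≤ (Vz z)⁻¹ ^ 2 * 1 * V1 w z := by
        apply mul_le_mul _ hlf hlf0 (by positivity)
        exact mul_le_mul_of_nonneg_left hu (by positivity)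
      refine c1.trans ?_
      have c2 : (Vz z)⁻¹ ^ 2 * 1 * V1 w z = (Vz w)⁻¹ * (Vz z)⁻¹ := by
        rw [hsplit]
        field_simp
      rw [c2, hW, hbta]
      exact mul_le_mul_of_nonneg_left hVC (inv_pos.2 hVw).le
    have hL6 : L ^ 6 ≤ Y := b5
    have hsq : L ^ 3 * √(2 * (Y : ℝ)) ≤ 2 * Y := by
      have c1 : L ^ 3 ≤ √(Y : ℝ) := by
        apply Real.le_sqrt_of_sq_le
        rw [← pow_mul]
        exact hL6
      have c2 : √(2 * (Y : ℝ)) ≤ 2 * √(Y : ℝ) := by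
        rw [Real.sqrt_le_left (by positivity), mul_pow, Real.sq_sqrt hY0.le]
        linarith
      calc L ^ 3 * √(2 * (Y : ℝ)) ≤ √(Y : ℝ) * (2 * √(Y : ℝ)) :=
            mul_le_mul c1 c2 (Real.sqrt_nonneg _) (Real.sqrt_nonneg _)
        _ = 2 * (√(Y : ℝ) * √(Y : ℝ)) := by ring
        _ = 2 * Y := by rw [Real.mul_self_sqrt hY0.le]
    have hconv' : |L ^ 2 * D - S| ≤ 4 * Y / L ^ 2 + 16 * (L ^ 3 * √(2 * (Y : ℝ))) / L + 48 * ℓ / L * S := by
      refine hconv.trans (le_of_eq ?_)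
      congr 2
      field_simp
    have hfin := fin_aux N Y L ℓ W D S Z 0 G (L ^ 3 * √(2 * (Y : ℝ))) (bta W) ((((B0 : ℝ) + 1) * ℓ) ^ C) hN0 hY0 hL1
      (by linarith) hℓL hW1r hN1 hsq (by positivity) hconv' hdf hZG hGle hbta0 (by positivity)
    refine hfin.trans ?_
    have f1 : (200 * (W : ℝ) + 400) / L ≤ ε / 2 := by
      rw [div_le_iff₀ hL0]
      rw [div_le_iff₀ hε] at b3
      linarith
    have f2 : 48 * (bta W * (((B0 : ℝ) + 1) * ℓ) ^ C * ℓ) / L ≤ ε / 2 := by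
      rw [div_le_iff₀ hL0]
      have g1 : bta W * (((B0 : ℝ) + 1) * ℓ) ^ C * ℓ = K * ℓ ^ (C + 1) := by
        rw [hK, mul_pow, pow_succ]
        ring
      rw [g1]
      have g2 : ε / (200 * (K + 1)) * L * (200 * (K + 1)) = ε * L := by
        field_simp
      have g3 : ℓ ^ (C + 1) * (200 * (K + 1)) ≤ ε * L := by
        rw [← g2]
        exact mul_le_mul_of_nonneg_right b1 (by positivity)
      have g4 : 0 ≤ ℓ ^ (C + 1) := pow_nonneg (by linarith) _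
      have g5 : 0 ≤ K * ℓ ^ (C + 1) := mul_nonneg hK0 g4
      linarith
    linarith
  have hcard := card_le_card hsub
  have hcast : ((#((Icc 1 Y ×ˢ Icc 1 Y).filter (fun q : ℕ × ℕ => q.1 ≠ q.2 ∧ ¬ ∀ t : ZMod (primorial w),
      |L ^ 2 * dn Y (primorial w) t (fun s => (q.1 + s).Prime ∧ (q.2 + s).Prime) -
        bta (primorial w) ^ 2 * un ((q.1 : ZMod (primorial w)) + t) * un ((q.2 : ZMod (primorial w)) + t) *
        sg w z (Nat.dist q.1 q.2)| ≤ ε)) : ℕ) : ℝ) ≤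
      ((#((Icc 1 Y ×ˢ Icc 1 Y).filter (fun q : ℕ × ℕ => ¬ ∀ t : ZMod (primorial w), |df Y z t q.1 q.2| ≤ Y / L)) : ℕ) : ℝ) := by
    exact_mod_cast hcard
  convert hcast using 3

end Pool.Agent.Q156.GC
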