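import Pool.Agent.H373R2.T7.BilLam

/-!
Project GC, job GC9: the primes and their sieve model have the same correlations with arbitrary
weights, for almost all shifts.
-/

set_option autoImplicit false

namespace Pool.Agent.Q156.GC

open Finset Polynomial
open Pool.Agent.H373R2.T7 (lamI lamzI lamz bil_lam)

/-- the primes minus the model -/
noncomputable def dl (z n : ℕ) : ℝ := ArithmeticFunction.vonMangoldt n - lamz z n

theorem step1 (U : ℕ) : ∃ B0 : ℕ, ∀ E : ℕ, ∃ N0 : ℕ, ∀ Y : ℕ, N0 ≤ Y → ∀ z : ℕ, Real.log Y ^ B0 ≤ z →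
    (z : ℝ) ≤ Real.log Y ^ E → ∀ c : ℕ → ℝ, (∀ s, |c s| ≤ 1) →
    ∑ n ∈ Icc 1 Y, |∑ s ∈ Icc 1 Y, c s * dl z (n + s)| ≤ (Y : ℝ) * Y / Real.log Y ^ U := by
  obtain ⟨B0, h⟩ := bil_lam (X : ℤ[X]) (by rw [natDegree_X]) (by rw [leadingCoeff_X]; norm_num) 1 le_rfl U
  refine ⟨B0, fun E => ?_⟩
  obtain ⟨N0, h⟩ := h E
  refine ⟨N0, fun Y hY z hz1 hz2 c hc => ?_⟩
  have h1 := h Y hY Y (by rw [natDegree_X, pow_one, one_mul]) (by rw [natDegree_X, pow_one, one_mul]) Y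
    (by rw [one_mul]) z hz1 hz2 1 (Or.inl rfl)
    (fun n => ((if 0 ≤ ∑ s ∈ Icc 1 Y, c s * dl z (n + s) then 1 else -1 : ℝ) : ℂ)) (fun s => ((c s : ℝ) : ℂ))
    (by
      intro n
      rw [Complex.norm_real]
      split_ifs <;> simp)
    (by
      intro s
      rw [Complex.norm_real]
      exact hc s)
  refine le_trans (le_of_eq ?_) h1
  have e1 : ∑ a ∈ Icc 1 Y, ∑ m ∈ Icc 1 Y, ((if 0 ≤ ∑ s ∈ Icc 1 Y, c s * dl z (a + s) then 1 else -1 : ℝ) : ℂ) *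
      ((c m : ℝ) : ℂ) * ((lamI (a + 1 * (X : ℤ[X]).eval (m : ℤ)) - lamzI z (a + 1 * (X : ℤ[X]).eval (m : ℤ)) : ℝ) : ℂ) =
      ((∑ n ∈ Icc 1 Y, |∑ s ∈ Icc 1 Y, c s * dl z (n + s)| : ℝ) : ℂ) := by
    push_cast
    apply sum_congr rfl
    intro a ha
    rw [mem_Icc] at ha
    have e2 : ∀ m ∈ Icc 1 Y, ((if 0 ≤ ∑ s ∈ Icc 1 Y, c s * dl z (a + s) then 1 else -1 : ℝ) : ℂ) *
        ((c m : ℝ) : ℂ) * ((lamI (a + 1 * (X : ℤ[X]).eval (m : ℤ)) - lamzI z (a + 1 * (X : ℤ[X]).eval (m : ℤ)) : ℝ) : ℂ) =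
        (((if 0 ≤ ∑ s ∈ Icc 1 Y, c s * dl z (a + s) then 1 else -1 : ℝ) * (c m * dl z (a + m)) : ℝ) : ℂ) := by
      intro m hm
      rw [mem_Icc] at hm
      have e3 : lamI (a + 1 * (X : ℤ[X]).eval (m : ℤ)) - lamzI z (a + 1 * (X : ℤ[X]).eval (m : ℤ)) = dl z (a + m) := by
        rw [eval_X, one_mul]
        unfold lamI lamzI dl
        have h3 : (1 : ℤ) ≤ (a : ℤ) + m := by omega
        have h4 : ((a : ℤ) + m).toNat = a + m := by omega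
        rw [if_pos h3, if_pos h3, h4]
      rw [e3]
      push_cast
      ring
    have e4 := sum_congr rfl e2
    push_cast at e4 ⊢
    rw [e4]
    have e5 : (if 0 ≤ ∑ s ∈ Icc 1 Y, c s * dl z (a + s) then 1 else -1 : ℝ) * ∑ s ∈ Icc 1 Y, c s * dl z (a + s) =
        |∑ s ∈ Icc 1 Y, c s * dl z (a + s)| := by
      split_ifs with h3
      · rw [one_mul, abs_of_nonneg h3]
      · rw [abs_of_neg (not_le.1 h3)]
        ring
    rw [← e5, mul_sum]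
    push_cast
    rfl
  rw [e1, Complex.norm_real, Real.norm_of_nonneg (sum_nonneg fun _ _ => abs_nonneg _)]

end Pool.Agent.Q156.GC
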