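import Pool.Agent.Q156.SW.S2
import Pool.Agent.Q145.GC.Spec

/-!
Project GC, job GC9: the number of pairs of rough values in a residue class.
-/

set_option autoImplicit false

namespace Pool.Agent.Q156.GC

open Finset
open Pool.Agent.H373R2.T7 (pz mem_pz nuB PerB sys_count Vz Vz_pos lamz)
open Pool.Agent.Q156.SW
open Pool.Agent.Q145.GC

lemma nuB_dvd (z₁ : ℕ) (P c₁ c₂ : ℤ) (hP : ∀ p : ℕ, p.Prime → z₁ < p → ¬ (p : ℤ) ∣ P) (p : ℕ) (hp : p.Prime)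
    (h : z₁ < p) (hd : (p : ℤ) ∣ c₁ - c₂) : nuB (Q2 z₁ P c₁ c₂) p = 1 := by
  classical
  have e1 := card_one p hp P c₁ (hP p hp h)
  unfold nuB
  rw [← e1]
  congr 1
  apply filter_congr
  intro t _
  unfold Q2
  constructor
  · rintro ⟨_, h1 | h1⟩
    · exact h1
    · have h2 : c₁ + P * (t : ℤ) = (c₁ - c₂) + (c₂ + P * t) := by ring
      rw [h2]
      exact dvd_add hd h1
  · intro h1
    exact ⟨h, Or.inl h1⟩

/-- the local factors -/
noncomputable def lf (z₁ z : ℕ) (h : ℤ) : ℝ :=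
  ∏ p ∈ pq z₁ z, (if (p : ℤ) ∣ h then 1 - 1 / (p : ℝ) else 1 - 2 / (p : ℝ))

theorem cnt2_asym (E U : ℕ) : ∃ N0 : ℕ, ∀ T : ℕ, N0 ≤ T → ∀ z : ℕ, 1 ≤ z → (z : ℝ) ≤ Real.log T ^ E →
    ∀ (z₁ : ℕ) (P : ℤ), (∀ p : ℕ, p.Prime → z₁ < p → ¬ (p : ℤ) ∣ P) → ∀ c₁ c₂ : ℤ,
    |(cnt2 z₁ z P c₁ c₂ T : ℝ) - T * lf z₁ z (c₁ - c₂)| ≤ T / Real.log T ^ U := by
  classical
  obtain ⟨N0, h⟩ := sys_count 2 E U (by norm_num)
  refine ⟨N0, fun T hT z hz hzE z₁ P hP c₁ c₂ => ?_⟩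
  have h1 := h T hT z hz hzE (Q2 z₁ P c₁ c₂) (perB_Q2 z₁ P c₁ c₂ hP)
  have e1 : ((Icc 1 T).filter (fun n : ℕ => ∀ p ∈ pz z, ¬ Q2 z₁ P c₁ c₂ p n)).card = cnt2 z₁ z P c₁ c₂ T := by
    unfold cnt2
    congr 1
    apply filter_congr
    intro t _
    unfold Q2 rg
    rw [pq_sub]
    constructor
    · intro h2
      refine ⟨fun p hp hd => ?_, fun p hp hd => ?_⟩
      · exact h2 p (mem_filter.1 hp).1 ⟨(mem_filter.1 hp).2, Or.inl hd⟩
      · exact h2 p (mem_filter.1 hp).1 ⟨(mem_filter.1 hp).2, Or.inr hd⟩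
    · rintro ⟨h2, h3⟩ p hp ⟨h4, h5 | h5⟩
      · exact h2 p (mem_filter.2 ⟨hp, h4⟩) h5
      · exact h3 p (mem_filter.2 ⟨hp, h4⟩) h5
  rw [e1] at h1
  have e2 : ∏ p ∈ pz z, (1 - (nuB (Q2 z₁ P c₁ c₂) p : ℝ) / p) = lf z₁ z (c₁ - c₂) := by
    have e3 : lf z₁ z (c₁ - c₂) = ∏ p ∈ pz z, (if z₁ < p then
        (if ((p : ℕ) : ℤ) ∣ c₁ - c₂ then 1 - 1 / (p : ℝ) else 1 - 2 / (p : ℝ)) else 1) := by
      rw [prod_ite, prod_const_one, mul_one, ← pq_sub]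
      rfl
    rw [e3]
    apply prod_congr rfl
    intro p hp
    have hp2 := (mem_pz.1 hp).2
    split_ifs with h3 h4
    · rw [nuB_dvd z₁ P c₁ c₂ hP p hp2 h3 h4]
      norm_num
    · have h5 := (nuB_Q2 z₁ P c₁ c₂ hP p hp2).2 h3
      have h6 : nuB (Q2 z₁ P c₁ c₂) p = 2 := le_antisymm h5.2.1 (h5.2.2.1 h4)
      rw [h6]
      norm_num
    · rw [(nuB_Q2 z₁ P c₁ c₂ hP p hp2).1 (by omega)]
      simp
  rwa [e2] at h1

/-- the residue `r₀` with `s = W j - r₀` in the class `t` -/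
def r0 {W : ℕ} (t : ZMod W) : ℕ := (-t).val

lemma r0_lt {W : ℕ} [NeZero W] (t : ZMod W) : r0 t < W := ZMod.val_lt _

lemma cast_r0 {W : ℕ} [NeZero W] (t : ZMod W) : ((r0 t : ℕ) : ZMod W) = -t := ZMod.natCast_zmod_val _

/-- the number of the shifts in a class -/
def NT (Y : ℕ) {W : ℕ} (t : ZMod W) : ℕ := (Y + r0 t) / W

/-- sums over a class -/
lemma class_sum (Y : ℕ) {W : ℕ} [NeZero W] (t : ZMod W) (f : ℕ → ℝ)
    [DecidablePred fun s : ℕ => (s : ZMod W) = t] :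
    ∑ s ∈ (Icc 1 Y).filter (fun s : ℕ => (s : ZMod W) = t), f s = ∑ j ∈ Icc 1 (NT Y t), f (W * j - r0 t) := by
  classical
  have hW : 0 < W := Nat.pos_of_ne_zero (NeZero.ne W)
  have hr := r0_lt t
  symm
  apply sum_bij (fun j _ => W * j - r0 t)
  · intro j hj
    rw [mem_Icc] at hj
    have h1 : W ≤ W * j := Nat.le_mul_of_pos_right W hj.1
    have h2 : W * j ≤ Y + r0 t := by
      have := Nat.mul_le_of_le_div W j (Y + r0 t) hj.2
      rwa [mul_comm] at this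
    refine mem_filter.2 ⟨mem_Icc.2 ⟨by omega, by omega⟩, ?_⟩
    rw [Nat.cast_sub (by omega), Nat.cast_mul, ZMod.natCast_self, zero_mul, zero_sub, cast_r0, neg_neg]
  · intro j hj j' hj' h
    rw [mem_Icc] at hj hj'
    have h1 : W ≤ W * j := Nat.le_mul_of_pos_right W hj.1
    have h2 : W ≤ W * j' := Nat.le_mul_of_pos_right W hj'.1
    have h3 : W * j = W * j' := by
      have h' : W * j - r0 t = W * j' - r0 t := h
      omega
    exact Nat.eq_of_mul_eq_mul_left hW h3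
  · intro s hs
    obtain ⟨hs1, hs2⟩ := mem_filter.1 hs
    rw [mem_Icc] at hs1
    have h1 : ((s + r0 t : ℕ) : ZMod W) = 0 := by
      rw [Nat.cast_add, hs2, cast_r0, add_neg_cancel]
    have h2 : W ∣ s + r0 t := (ZMod.natCast_eq_zero_iff _ _).1 h1
    obtain ⟨j, hj⟩ := h2
    refine ⟨j, mem_Icc.2 ⟨?_, ?_⟩, by omega⟩
    · rcases Nat.eq_zero_or_pos j with h3 | h3
      · rw [h3, mul_zero] at hj
        omega
      · exact h3
    · unfold NT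
      rw [Nat.le_div_iff_mul_le hW, mul_comm]
      omega
  · intro j _
    rfl

lemma class_card (Y : ℕ) {W : ℕ} [NeZero W] (t : ZMod W) [DecidablePred fun s : ℕ => (s : ZMod W) = t] :
    ((Icc 1 Y).filter (fun s : ℕ => (s : ZMod W) = t)).card = NT Y t := by
  have h := class_sum Y t (fun _ => 1)
  rw [sum_const, sum_const, nsmul_eq_mul, nsmul_eq_mul, mul_one, mul_one, Nat.card_Icc, Nat.add_sub_cancel] at h
  exact_mod_cast h

end Pool.Agent.Q156.GC
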