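import Pool.Agent.Q156.GC.H1
import Pool.Agent.H373R2.T7.LamZ2
import Mathlib.Data.ZMod.Basic

/-!
Project GC, job GC9: the pairs of shifts for which the correlations in the classes are not those
of the model are few.
-/

set_option autoImplicit false

namespace Pool.Agent.Q156.GC

open Finset
open Pool.Agent.H373R2.T7 (lamz Vz Vz_pos Vz_inv_small)

open Classical in
/-- sum over a class -/
noncomputable def cs (Y : ℕ) {W : ℕ} (t : ZMod W) (f : ℕ → ℝ) : ℝ :=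
  ∑ s ∈ (Icc 1 Y).filter (fun s : ℕ => (s : ZMod W) = t), f s

lemma lamz_nonneg (z n : ℕ) : 0 ≤ lamz z n := by
  unfold lamz
  split_ifs
  · exact (inv_pos.2 (Vz_pos z)).le
  · exact le_rfl

lemma lamz_le (z n : ℕ) : lamz z n ≤ (Vz z)⁻¹ := by
  unfold lamz
  split_ifs
  · exact le_rfl
  · exact (inv_pos.2 (Vz_pos z)).le

/-- the bound for one weight -/
lemma one_weight (Y z : ℕ) (R : ℝ) (h : ∀ c : ℕ → ℝ, (∀ s, |c s| ≤ 1) →
    ∑ n ∈ Icc 1 Y, |∑ s ∈ Icc 1 Y, c s * dl z (n + s)| ≤ R) {W : ℕ} (t : ZMod W) (g : ℕ → ℝ) (M : ℝ) (hM : 0 < M)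
    (hg : ∀ s ≤ Y, |g s| ≤ M) : ∑ n ∈ Icc 1 Y, |cs Y t (fun s => g s * dl z (n + s))| ≤ M * R := by
  classical
  have h1 := h (fun s => if s ≤ Y ∧ (s : ZMod W) = t then g s / M else 0) (by
    intro s
    split_ifs with h2
    · rw [abs_div, abs_of_pos hM, div_le_one hM]
      exact hg s h2.1
    · rw [abs_zero]
      exact zero_le_one)
  have e1 : ∀ n ∈ Icc 1 Y, |cs Y t (fun s => g s * dl z (n + s))| =
      M * |∑ s ∈ Icc 1 Y, (if s ≤ Y ∧ (s : ZMod W) = t then g s / M else 0) * dl z (n + s)| := by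
    intro n _
    rw [← abs_of_pos hM, ← abs_mul, abs_of_pos hM, mul_sum]
    congr 1
    unfold cs
    rw [sum_filter]
    apply sum_congr
    · rfl
    · intro s hs
      rw [mem_Icc] at hs
      by_cases h2 : (s : ZMod W) = t
      · rw [if_pos h2, if_pos ⟨hs.2, h2⟩]
        field_simp
      · rw [if_neg h2, if_neg (fun h3 => h2 h3.2)]
        ring
  rw [sum_congr rfl e1, ← mul_sum]
  exact mul_le_mul_of_nonneg_left h1 hM.le

/-- the difference of the correlations -/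
noncomputable def df (Y z : ℕ) {W : ℕ} (t : ZMod W) (n m : ℕ) : ℝ :=
  cs Y t (fun s => ArithmeticFunction.vonMangoldt (n + s) * ArithmeticFunction.vonMangoldt (m + s)) -
    cs Y t (fun s => lamz z (n + s) * lamz z (m + s))

lemma df_eq (Y z : ℕ) {W : ℕ} (t : ZMod W) (n m : ℕ) :
    df Y z t n m = cs Y t (fun s => ArithmeticFunction.vonMangoldt (m + s) * dl z (n + s)) +
      cs Y t (fun s => lamz z (n + s) * dl z (m + s)) := by
  unfold df cs dl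
  rw [← sum_sub_distrib, ← sum_add_distrib]
  apply sum_congr rfl
  intro s _
  ring

theorem df_sum (W : ℕ) [NeZero W] (U : ℕ) : ∃ B0 : ℕ, ∀ E : ℕ, ∃ N0 : ℕ, ∀ Y : ℕ, N0 ≤ Y → ∀ z : ℕ, 1 ≤ z →
    Real.log Y ^ B0 ≤ z → (z : ℝ) ≤ Real.log Y ^ E → ∀ t : ZMod W,
    ∑ n ∈ Icc 1 Y, ∑ m ∈ Icc 1 Y, |df Y z t n m| ≤ 3 * Real.log Y * (Y * ((Y : ℝ) * Y / Real.log Y ^ U)) := by
  obtain ⟨B0, h⟩ := step1 U
  refine ⟨B0, fun E => ?_⟩
  obtain ⟨N0, h⟩ := h E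
  obtain ⟨N1, hV⟩ := Vz_inv_small E
  refine ⟨max (max N0 N1) 3, fun Y hY z hz hz1 hz2 t => ?_⟩
  have hY0 : N0 ≤ Y := (le_max_left _ _).trans ((le_max_left _ _).trans hY)
  have hY1 : N1 ≤ Y := (le_max_right _ _).trans ((le_max_left _ _).trans hY)
  have hY3 : 3 ≤ Y := (le_max_right _ _).trans hY
  replace h := h Y hY0 z hz1 hz2
  have hV1 := hV Y hY1 z hz hz2
  obtain ⟨L, hL⟩ : ∃ L, L = Real.log Y := ⟨_, rfl⟩
  rw [← hL] at h hV1 ⊢
  have hY3r : (3 : ℝ) ≤ Y := by exact_mod_cast hY3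
  have hL1 : 1 ≤ L := by
    rw [hL, Real.le_log_iff_exp_le (by linarith)]
    have := Real.exp_one_lt_d9
    linarith
  have hlog2 : ∀ a : ℕ, a ≤ 2 * Y → Real.log a ≤ 2 * L := by
    intro a ha
    rcases Nat.eq_zero_or_pos a with h0 | h0
    · rw [h0, Nat.cast_zero, Real.log_zero]
      linarith
    · have h1 : (a : ℝ) ≤ Y * Y := by
        have : (a : ℝ) ≤ 2 * Y := by exact_mod_cast ha
        nlinarith
      have h2 : Real.log a ≤ Real.log (Y * Y) := Real.log_le_log (by exact_mod_cast h0) h1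
      rw [Real.log_mul (by linarith) (by linarith), ← hL] at h2
      linarith
  obtain ⟨R, hR⟩ : ∃ R, R = (Y : ℝ) * Y / L ^ U := ⟨_, rfl⟩
  rw [← hR] at h ⊢
  have a1 : ∀ m ∈ Icc 1 Y, ∑ n ∈ Icc 1 Y, |cs Y t (fun s => ArithmeticFunction.vonMangoldt (m + s) * dl z (n + s))| ≤
      (2 * L) * R := by
    intro m hm
    rw [mem_Icc] at hm
    apply one_weight Y z R h t (fun s => ArithmeticFunction.vonMangoldt (m + s)) (2 * L) (by linarith)
    intro s hs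
    rw [abs_of_nonneg ArithmeticFunction.vonMangoldt_nonneg]
    exact ArithmeticFunction.vonMangoldt_le_log.trans (hlog2 _ (by omega))
  have a2 : ∀ n ∈ Icc 1 Y, ∑ m ∈ Icc 1 Y, |cs Y t (fun s => lamz z (n + s) * dl z (m + s))| ≤ L * R := by
    intro n _
    apply one_weight Y z R h t (fun s => lamz z (n + s)) L (by linarith)
    intro s _
    rw [abs_of_nonneg (lamz_nonneg _ _)]
    exact (lamz_le _ _).trans hV1
  have b1 : ∑ n ∈ Icc 1 Y, ∑ m ∈ Icc 1 Y, |cs Y t (fun s => ArithmeticFunction.vonMangoldt (m + s) * dl z (n + s))| ≤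
      Y * ((2 * L) * R) := by
    rw [sum_comm]
    calc ∑ m ∈ Icc 1 Y, ∑ n ∈ Icc 1 Y, |cs Y t (fun s => ArithmeticFunction.vonMangoldt (m + s) * dl z (n + s))|
        ≤ ∑ _m ∈ Icc 1 Y, (2 * L) * R := sum_le_sum a1
      _ = Y * ((2 * L) * R) := by rw [sum_const, Nat.card_Icc, nsmul_eq_mul, Nat.add_sub_cancel]
  have b2 : ∑ n ∈ Icc 1 Y, ∑ m ∈ Icc 1 Y, |cs Y t (fun s => lamz z (n + s) * dl z (m + s))| ≤ Y * (L * R) := by
    calc ∑ n ∈ Icc 1 Y, ∑ m ∈ Icc 1 Y, |cs Y t (fun s => lamz z (n + s) * dl z (m + s))|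
        ≤ ∑ _n ∈ Icc 1 Y, L * R := sum_le_sum a2
      _ = Y * (L * R) := by rw [sum_const, Nat.card_Icc, nsmul_eq_mul, Nat.add_sub_cancel]
  calc ∑ n ∈ Icc 1 Y, ∑ m ∈ Icc 1 Y, |df Y z t n m|
      ≤ ∑ n ∈ Icc 1 Y, ∑ m ∈ Icc 1 Y, (|cs Y t (fun s => ArithmeticFunction.vonMangoldt (m + s) * dl z (n + s))| +
          |cs Y t (fun s => lamz z (n + s) * dl z (m + s))|) := by
        apply sum_le_sum
        intro n _
        apply sum_le_sum
        intro m _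
        rw [df_eq]
        exact abs_add_le _ _
    _ = ∑ n ∈ Icc 1 Y, ∑ m ∈ Icc 1 Y, |cs Y t (fun s => ArithmeticFunction.vonMangoldt (m + s) * dl z (n + s))| +
        ∑ n ∈ Icc 1 Y, ∑ m ∈ Icc 1 Y, |cs Y t (fun s => lamz z (n + s) * dl z (m + s))| := by
        rw [← sum_add_distrib]
        apply sum_congr rfl
        intro n _
        rw [sum_add_distrib]
    _ ≤ Y * ((2 * L) * R) + Y * (L * R) := add_le_add b1 b2
    _ = 3 * L * (Y * R) := by ring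

open Classical in
theorem few_pairs (W : ℕ) [NeZero W] (A : ℕ) : ∃ B0 : ℕ, ∀ E : ℕ, ∃ N0 : ℕ, ∀ Y : ℕ, N0 ≤ Y → ∀ z : ℕ, 1 ≤ z →
    Real.log Y ^ B0 ≤ z → (z : ℝ) ≤ Real.log Y ^ E →
    (((Icc 1 Y ×ˢ Icc 1 Y).filter (fun q : ℕ × ℕ => ¬ ∀ t : ZMod W, |df Y z t q.1 q.2| ≤ Y / Real.log Y)).card : ℝ) ≤
      (Y : ℝ) ^ 2 / Real.log Y ^ A := by
  obtain ⟨B0, h⟩ := df_sum W (A + 3)
  refine ⟨B0, fun E => ?_⟩
  obtain ⟨N0, h⟩ := h E
  obtain ⟨N1, hN1⟩ : ∃ N1 : ℕ, ∀ Y : ℕ, N1 ≤ Y → 3 * (W : ℝ) ≤ Real.log Y := by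
    have := (Real.tendsto_log_atTop.comp tendsto_natCast_atTop_atTop).eventually_ge_atTop (3 * (W : ℝ))
    exact Filter.eventually_atTop.1 this
  refine ⟨max (max N0 N1) 3, fun Y hY z hz hz1 hz2 => ?_⟩
  have hY0 : N0 ≤ Y := (le_max_left _ _).trans ((le_max_left _ _).trans hY)
  have hY1 : N1 ≤ Y := (le_max_right _ _).trans ((le_max_left _ _).trans hY)
  have hY3 : 3 ≤ Y := (le_max_right _ _).trans hY
  replace h := h Y hY0 z hz hz1 hz2
  have hLW := hN1 Y hY1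
  obtain ⟨L, hL⟩ : ∃ L, L = Real.log Y := ⟨_, rfl⟩
  rw [← hL] at h hLW ⊢
  have hY3r : (3 : ℝ) ≤ Y := by exact_mod_cast hY3
  have hL1 : 1 ≤ L := by
    rw [hL, Real.le_log_iff_exp_le (by linarith)]
    have := Real.exp_one_lt_d9
    linarith
  have hL0 : 0 < L := by linarith
  have hY0r : (0 : ℝ) < Y := by linarith
  obtain ⟨Q, hQ⟩ : ∃ Q, Q = (Icc 1 Y ×ˢ Icc 1 Y).filter
    (fun q : ℕ × ℕ => ¬ ∀ t : ZMod W, |df Y z t q.1 q.2| ≤ Y / L) := ⟨_, rfl⟩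
  rw [← hQ]
  have h1 : (#Q : ℝ) * (Y / L) ≤ ∑ t : ZMod W, 3 * L * (Y * ((Y : ℝ) * Y / L ^ (A + 3))) := by
    calc (#Q : ℝ) * (Y / L) = ∑ _q ∈ Q, (Y : ℝ) / L := by rw [sum_const, nsmul_eq_mul]
      _ ≤ ∑ q ∈ Q, ∑ t : ZMod W, |df Y z t q.1 q.2| := by
          apply sum_le_sum
          intro q hq
          rw [hQ] at hq
          have h2 := (mem_filter.1 hq).2
          push Not at h2
          obtain ⟨t, ht⟩ := h2
          exact ht.le.trans (single_le_sum (f := fun t : ZMod W => |df Y z t q.1 q.2|)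
            (fun _ _ => abs_nonneg _) (mem_univ t))
      _ ≤ ∑ q ∈ Icc 1 Y ×ˢ Icc 1 Y, ∑ t : ZMod W, |df Y z t q.1 q.2| := by
          apply sum_le_sum_of_subset_of_nonneg
          · rw [hQ]
            exact filter_subset _ _
          · intro q _ _
            exact sum_nonneg fun _ _ => abs_nonneg _
      _ = ∑ t : ZMod W, ∑ n ∈ Icc 1 Y, ∑ m ∈ Icc 1 Y, |df Y z t n m| := by
          rw [sum_comm]
          apply sum_congr rfl
          intro t _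
          rw [sum_product]
      _ ≤ ∑ t : ZMod W, 3 * L * (Y * ((Y : ℝ) * Y / L ^ (A + 3))) := sum_le_sum fun t _ => h t
  rw [sum_const, card_univ, ZMod.card, nsmul_eq_mul] at h1
  rw [le_div_iff₀ (pow_pos hL0 A)]
  have h2 : (#Q : ℝ) * (Y / L) * (L ^ (A + 3) / (Y * L ^ 2)) ≤
      W * (3 * L * (Y * ((Y : ℝ) * Y / L ^ (A + 3)))) * (L ^ (A + 3) / (Y * L ^ 2)) :=
    mul_le_mul_of_nonneg_right h1 (by positivity)
  have h3 : (#Q : ℝ) * (Y / L) * (L ^ (A + 3) / (Y * L ^ 2)) = #Q * L ^ A := by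
    rw [pow_add]
    field_simp
  have h4 : W * (3 * L * (Y * ((Y : ℝ) * Y / L ^ (A + 3)))) * (L ^ (A + 3) / (Y * L ^ 2)) = 3 * W / L * (Y : ℝ) ^ 2 := by
    field_simp
  rw [h3, h4] at h2
  refine h2.trans (mul_le_of_le_one_left (by positivity) ?_)
  rw [div_le_one hL0]
  exact hLW

end Pool.Agent.Q156.GC
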