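import Pool.Agent.Q156.GC.H2
import Pool.Agent.Q156.GC.H3
import Pool.Agent.Q156.SW.S6

/-!
Project GC, job GC9: the main term.
-/

set_option autoImplicit false

namespace Pool.Agent.Q156.GC

open Finset
open Pool.Agent.H373R2.T7 (pz mem_pz Vz Vz_pos lamz)
open Pool.Agent.Q156.SW
open Pool.Agent.Q145.GC

lemma bta_eq (w : ℕ) : bta (primorial w) = (Vz w)⁻¹ := by
  have h1 := Nat.totient_eq_mul_prod_factors (primorial w)
  have h2 : ((Nat.totient (primorial w) : ℕ) : ℝ) = (primorial w : ℝ) * ∏ p ∈ (primorial w).primeFactors, (1 - (p : ℝ)⁻¹) := by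
    have := congrArg (Rat.cast : ℚ → ℝ) h1
    push_cast at this
    exact this
  have h3 : (primorial w).primeFactors = pz w := by
    rw [primeFactors_primorial]
    ext p
    rw [mem_pz]
    simp only [Nat.mem_primesLE]
  have h4 : (∏ p ∈ pz w, (1 - (p : ℝ)⁻¹)) = Vz w := by
    unfold Vz
    apply prod_congr rfl
    intro p _
    rw [one_div]
  unfold bta
  rw [h2, h3, h4]
  have h5 : (primorial w : ℝ) ≠ 0 := by exact_mod_cast (primorial_pos w).ne'
  have h6 := (Vz_pos w).ne'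
  field_simp

lemma dist_eq (n m : ℕ) : Nat.dist n m = ((n : ℤ) - m).natAbs := by
  unfold Nat.dist
  omega

lemma dvd_dist (p n m : ℕ) : p ∣ Nat.dist n m ↔ (p : ℤ) ∣ (n : ℤ) - m := by
  rw [dist_eq, Int.natCast_dvd]

lemma sg_eq (w z n m : ℕ) : sg w z (Nat.dist n m) = (V1 w z)⁻¹ ^ 2 * lf w z ((n : ℤ) - m) := by
  unfold sg V1 lf pq
  rw [← prod_inv_distrib, ← prod_pow, ← prod_mul_distrib]
  apply prod_congr rfl
  intro p hp
  have h1 := (mem_filter.1 hp).2.two_le
  have h2 : (2 : ℝ) ≤ p := by exact_mod_cast h1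
  have h3 : (p : ℝ) - 1 ≠ 0 := by linarith
  have h4 : (p : ℝ) ≠ 0 := by linarith
  have h5 : 1 - 1 / (p : ℝ) = (p - 1) / p := by field_simp
  have h6 : 1 - 2 / (p : ℝ) = (p - 2) / p := by field_simp
  by_cases h : p ∣ Nat.dist n m
  · rw [if_pos h, if_pos ((dvd_dist p n m).1 h), h5]
    field_simp
  · rw [if_neg h, if_neg (fun h' => h ((dvd_dist p n m).2 h')), h5, h6]
    field_simp

lemma lf_nonneg (w z : ℕ) (h : ℤ) : 0 ≤ lf w z h := by
  unfold lf pq
  apply prod_nonneg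
  intro p hp
  have h1 := (mem_filter.1 hp).2.two_le
  have h2 : (2 : ℝ) ≤ p := by exact_mod_cast h1
  have h3 : 2 / (p : ℝ) ≤ 1 := by rw [div_le_one (by linarith)]; exact h2
  have h4 : 1 / (p : ℝ) ≤ 1 := by rw [div_le_one (by linarith)]; linarith
  split_ifs <;> linarith

lemma lf_le (w z : ℕ) (h : ℤ) : lf w z h ≤ V1 w z := by
  unfold lf V1 pq
  apply prod_le_prod
  · intro p hp
    have h1 := (mem_filter.1 hp).2.two_le
    have h2 : (2 : ℝ) ≤ p := by exact_mod_cast h1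
    have h3 : 2 / (p : ℝ) ≤ 1 := by rw [div_le_one (by linarith)]; exact h2
    have h4 : 1 / (p : ℝ) ≤ 1 := by rw [div_le_one (by linarith)]; linarith
    split_ifs <;> linarith
  · intro p hp
    have h1 := (mem_filter.1 hp).2.two_le
    have h2 : (2 : ℝ) ≤ p := by exact_mod_cast h1
    have h3 : 0 ≤ 1 / (p : ℝ) := by positivity
    have h4 : 2 / (p : ℝ) = 2 * (1 / p) := by ring
    split_ifs <;> linarith

lemma un_nonneg {W : ℕ} (c : ZMod W) : 0 ≤ un c := by
  unfold un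
  split_ifs
  · exact zero_le_one
  · exact le_rfl

lemma un_le_one {W : ℕ} (c : ZMod W) : un c ≤ 1 := by
  unfold un
  split_ifs
  · exact le_rfl
  · exact zero_le_one

open Classical in
/-- one value -/
lemma rough_iff (w z : ℕ) (hwz : w ≤ z) (n : ℕ) (t : ZMod (primorial w)) (j : ℕ) (hj : 1 ≤ j) :
    (∀ p ∈ pz z, ¬ p ∣ n + (primorial w * j - r0 t)) ↔
      IsUnit ((n : ZMod (primorial w)) + t) ∧ rg w z ((n : ℤ) - r0 t + (primorial w : ℤ) * j) := by
  have hr := r0_lt t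
  have hWj : primorial w ≤ primorial w * j := Nat.le_mul_of_pos_right _ hj
  have e1 : ((n + (primorial w * j - r0 t) : ℕ) : ℤ) = (n : ℤ) - r0 t + (primorial w : ℤ) * j := by
    rw [Nat.cast_add, Nat.cast_sub (by omega), Nat.cast_mul]
    ring
  have e2 : ((n + (primorial w * j - r0 t) : ℕ) : ZMod (primorial w)) = (n : ZMod (primorial w)) + t := by
    rw [Nat.cast_add, Nat.cast_sub (by omega), Nat.cast_mul, ZMod.natCast_self, zero_mul, zero_sub, cast_r0, neg_neg]
  rw [← e2, ZMod.isUnit_iff_coprime, ← e1]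
  obtain ⟨a, ha⟩ : ∃ a, a = n + (primorial w * j - r0 t) := ⟨_, rfl⟩
  rw [← ha]
  constructor
  · intro h
    refine ⟨?_, ?_⟩
    · apply Nat.Coprime.symm
      rw [Nat.coprime_iff_gcd_eq_one]
      by_contra hc
      obtain ⟨p, hp, hpd⟩ := Nat.exists_prime_and_dvd hc
      have h1 : p ≤ w := hp.dvd_primorial_iff.1 (hpd.trans (Nat.gcd_dvd_left _ _))
      exact h p (mem_pz.2 ⟨h1.trans hwz, hp⟩) (hpd.trans (Nat.gcd_dvd_right _ _))
    · intro p hp hd
      obtain ⟨_, h2, h3⟩ := mem_pq.1 hp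
      exact h p (mem_pz.2 ⟨h2, h3⟩) (Int.natCast_dvd_natCast.1 hd)
  · rintro ⟨h1, h2⟩ p hp hd
    obtain ⟨h3, h4⟩ := mem_pz.1 hp
    rcases le_or_gt p w with h5 | h5
    · have h6 : p ∣ Nat.gcd a (primorial w) := Nat.dvd_gcd hd (h4.dvd_primorial_iff.2 h5)
      rw [h1] at h6
      exact h4.one_lt.ne' (Nat.dvd_one.1 h6)
    · exact h2 p (mem_pq.2 ⟨h5, h3, h4⟩) (Int.natCast_dvd_natCast.2 hd)

/-- the correlation of the model in a class -/
lemma cs_lamz (w z : ℕ) (hwz : w ≤ z) (Y n m : ℕ) (t : ZMod (primorial w)) :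
    cs Y t (fun s => lamz z (n + s) * lamz z (m + s)) =
      (Vz z)⁻¹ ^ 2 * (un ((n : ZMod (primorial w)) + t) * un ((m : ZMod (primorial w)) + t)) *
        cnt2 w z (primorial w : ℤ) ((n : ℤ) - r0 t) ((m : ℤ) - r0 t) (NT Y t) := by
  classical
  unfold cs
  rw [class_sum Y t]
  have e1 : ∀ j ∈ Icc 1 (NT Y t), lamz z (n + (primorial w * j - r0 t)) * lamz z (m + (primorial w * j - r0 t)) =
      (Vz z)⁻¹ ^ 2 * (un ((n : ZMod (primorial w)) + t) * un ((m : ZMod (primorial w)) + t)) *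
        (if rg w z ((n : ℤ) - r0 t + (primorial w : ℤ) * j) ∧ rg w z ((m : ℤ) - r0 t + (primorial w : ℤ) * j)
          then 1 else 0) := by
    intro j hj
    rw [mem_Icc] at hj
    have h1 := rough_iff w z hwz n t j hj.1
    have h2 := rough_iff w z hwz m t j hj.1
    unfold lamz un
    by_cases a1 : IsUnit ((n : ZMod (primorial w)) + t)
    · by_cases a2 : IsUnit ((m : ZMod (primorial w)) + t)
      · by_cases a3 : rg w z ((n : ℤ) - r0 t + (primorial w : ℤ) * j)
        · by_cases a4 : rg w z ((m : ℤ) - r0 t + (primorial w : ℤ) * j)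
          · rw [if_pos (h1.2 ⟨a1, a3⟩), if_pos (h2.2 ⟨a2, a4⟩), if_pos a1, if_pos a2, if_pos ⟨a3, a4⟩]
            ring
          · rw [if_neg (fun h => a4 (h2.1 h).2), if_neg (fun h : _ ∧ _ => a4 h.2)]
            ring
        · rw [if_neg (fun h => a3 (h1.1 h).2), if_neg (fun h : _ ∧ _ => a3 h.1)]
          ring
      · rw [if_neg (fun h => a2 (h2.1 h).1), if_neg a2]
        ring
    · rw [if_neg (fun h => a1 (h1.1 h).1), if_neg a1]
      ring
  rw [sum_congr rfl e1, ← mul_sum]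
  congr 1
  unfold cnt2
  rw [← sum_filter, sum_const, nsmul_eq_mul, mul_one]

end Pool.Agent.Q156.GC
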